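import Pool.Agent.H7.CY.A2

set_option autoImplicit false

/-! # The area inequality for one Taylor coefficient of `(ψ(1/z) - ψ(1/ζ)) ^ (-α)` -/

namespace Pool.Agent.H7.CY

open Metric Set Filter Topology
open scoped ENNReal
open Pool.Agent.W677.Mar Pool.Agent.W5h41.MA
open Pool.Agent.H33R3.Bom (J)
open Pool.Agent.H64.CX (bt rr TP TN)

variable {Y H : ℂ → ℂ} {f : ℂ × ℂ → ℂ}

/-- the Laurent coefficients of negative index -/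
noncomputable def dk (α : ℂ) (ν : ℕ → ℕ → ℂ) (j k : ℕ) : ℂ :=
  if 1 ≤ k ∧ k ≤ j then TN α ν k (j - k) else 0

theorem dk_mem {α : ℂ} {ν : ℕ → ℕ → ℂ} {j k : ℕ} (h : k ∈ Finset.Icc 1 j) :
    dk α ν j k = TN α ν k (j - k) := by
  unfold dk
  rw [if_pos (Finset.mem_Icc.1 h)]

theorem dk_notMem {α : ℂ} {ν : ℕ → ℕ → ℂ} {j k : ℕ} (h : k ∉ Finset.Icc 1 j) :
    dk α ν j k = 0 := by
  unfold dk
  rw [if_neg fun h1 => h (Finset.mem_Icc.2 h1)]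

theorem dk_bound (α : ℂ) (ν : ℕ → ℕ → ℂ) (j : ℕ) {r : ℝ} (hr : 0 < r) :
    ∃ C : ℝ, ∀ k, ‖dk α ν j k‖ ≤ C * r ^ k := by
  refine ⟨∑ k ∈ Finset.Icc 1 j, ‖dk α ν j k‖ / r ^ k, fun k => ?_⟩
  have hC : 0 ≤ ∑ k ∈ Finset.Icc 1 j, ‖dk α ν j k‖ / r ^ k := by positivity
  by_cases h : k ∈ Finset.Icc 1 j
  · have h1 := Finset.single_le_sum (f := fun k => ‖dk α ν j k‖ / r ^ k)
      (fun i _ => by positivity) h
    rw [← div_le_iff₀ (by positivity)]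
    exact h1
  · rw [dk_notMem h, norm_zero]
    positivity

/-- the inequality on circles -/
theorem area_R (S : Sg Y H) (L : Lg Y f) {α : ℂ} {ν : ℕ → ℕ → ℂ}
    (hν : ∀ ζ ∈ ball (0 : ℂ) 1, ∀ z ∈ ball (0 : ℂ) 1,
      HasSum (fun p : ℕ × ℕ => ν p.1 p.2 * ζ ^ p.1 * z ^ p.2) (Complex.exp (-(α * f (ζ, z)))))
    (j N : ℕ) {R : ℝ} (hR0 : 0 < R) (hR1 : R < 1) :
    ∑ n ∈ Finset.range N, (n : ℝ) * ‖TP α ν n (n + j)‖ ^ 2 * R ^ (2 * n) ≤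
      ∑ k ∈ Finset.Icc 1 j, (k : ℝ) * ‖TN α ν k (j - k)‖ ^ 2 * (R⁻¹) ^ (2 * k) := by
  obtain ⟨P, hP⟩ := poly S L hν j
  have hs := (fibre (K := fun ζ z => Complex.exp (-(α * f (ζ, z)))) hν).2
  have hL : ∀ z : ℂ, z ≠ 0 → ‖z‖ < 1 → HasSum (fun n : ℕ => TP α ν n (n + j) * z ^ n)
      (ej α ν j z - ∑ k ∈ Finset.Icc 1 j, TN α ν k (j - k) * (z⁻¹) ^ k) := fun z hz0 hz1 =>
    laurent α hz0 (fun a => hs a z (mem_ball_zero_iff.2 hz1)) j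
  set Φ : ℂ → ℂ := fun z => ∑' n : ℕ, TP α ν n (n + j) * z ^ n with hΦ
  have hΦs : ∀ z ∈ ball (0 : ℂ) 1, HasSum (fun n : ℕ => TP α ν n (n + j) * z ^ n) (Φ z) := by
    intro z hz
    by_cases hz0 : z = 0
    · subst hz0
      exact (summable_of_ne_finset_zero (s := {0}) (fun n hn => by
        rw [Finset.mem_singleton] at hn
        simp [zero_pow hn])).hasSum
    · exact (hL z hz0 (mem_ball_zero_iff.1 hz)).summable.hasSum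
  have hd : ∀ z : ℂ, ∑' k : ℕ, dk α ν j k * (z⁻¹) ^ k =
      ∑ k ∈ Finset.Icc 1 j, TN α ν k (j - k) * (z⁻¹) ^ k := by
    intro z
    rw [tsum_eq_sum (s := Finset.Icc 1 j) (fun k hk => by rw [dk_notMem hk, zero_mul])]
    exact Finset.sum_congr rfl fun k hk => by rw [dk_mem hk]
  have heq : ∀ z : ℂ, z ≠ 0 → ‖z‖ < 1 →
      Φ z + ∑' k : ℕ, dk α ν j k * (z⁻¹) ^ k = P.eval (Y z / z) := by
    intro z hz0 hz1
    rw [hd, ← hP z hz0 hz1]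
    have h1 := (hL z hz0 hz1).tsum_eq
    rw [hΦ]
    simp only
    rw [h1]
    ring
  obtain ⟨C, hC⟩ := dk_bound α ν j (half_pos hR0)
  obtain ⟨g1, g2, g3⟩ := Pool.Agent.H643R3.BomC4.taskC4 R (R / 2) C (fun n => TP α ν n (n + j))
    (dk α ν j) Φ (half_pos hR0) (half_lt_self hR0) hR1 (by simp [dk]) hΦs hC
  have g4 := t1 Y S.G P R hR0 hR1
  have hnc : ∀ t : ℝ, ‖circleMap 0 R t‖ = R := fun t => by simp [abs_of_pos hR0]
  have hAo : IsOpen {z : ℂ | 0 < ‖z‖ ∧ ‖z‖ < 1} :=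
    (isOpen_lt continuous_const continuous_norm).inter (isOpen_lt continuous_norm continuous_const)
  have hJ : J R (fun z => Φ z + ∑' k : ℕ, dk α ν j k * (z⁻¹) ^ k)
      (deriv fun z => Φ z + ∑' k : ℕ, dk α ν j k * (z⁻¹) ^ k) =
      J R (fun z => P.eval (Y z / z)) (deriv fun z => P.eval (Y z / z)) := by
    unfold J
    congr 1
    apply intervalIntegral.integral_congr
    intro t _
    have hm : 0 < ‖circleMap 0 R t‖ ∧ ‖circleMap 0 R t‖ < 1 := by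
      rw [hnc]; exact ⟨hR0, hR1⟩
    have hev : (fun z => Φ z + ∑' k : ℕ, dk α ν j k * (z⁻¹) ^ k) =ᶠ[𝓝 (circleMap 0 R t)]
        fun z => P.eval (Y z / z) := by
      filter_upwards [hAo.mem_nhds hm] with z hz using heq z (norm_pos_iff.1 hz.1) hz.2
    show (starRingEnd ℂ) (Φ (circleMap 0 R t) + ∑' k : ℕ, dk α ν j k * ((circleMap 0 R t)⁻¹) ^ k) *
        (circleMap 0 R t * deriv (fun z => Φ z + ∑' k : ℕ, dk α ν j k * (z⁻¹) ^ k)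
          (circleMap 0 R t)) = _
    rw [hev.deriv_eq, heq _ (norm_pos_iff.1 hm.1) hm.2]
  rw [← hJ, g3] at g4
  have hpi : 0 < 2 * Real.pi := by positivity
  have g5 : ∑' k : ℕ, (k : ℝ) * ‖TP α ν k (k + j)‖ ^ 2 * R ^ (2 * k) ≤
      ∑' k : ℕ, (k : ℝ) * ‖dk α ν j k‖ ^ 2 * (R⁻¹) ^ (2 * k) := by
    by_contra hcon
    push Not at hcon
    have := mul_pos hpi (sub_pos.2 hcon)
    linarith
  have g6 : ∑' k : ℕ, (k : ℝ) * ‖dk α ν j k‖ ^ 2 * (R⁻¹) ^ (2 * k) =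
      ∑ k ∈ Finset.Icc 1 j, (k : ℝ) * ‖TN α ν k (j - k)‖ ^ 2 * (R⁻¹) ^ (2 * k) := by
    rw [tsum_eq_sum (s := Finset.Icc 1 j) (fun k hk => by rw [dk_notMem hk]; simp)]
    exact Finset.sum_congr rfl fun k hk => by rw [dk_mem hk]
  rw [← g6]
  exact (g1.sum_le_tsum _ (fun k _ => by positivity)).trans g5

/-- **The area inequality for the `j`-th Taylor coefficient**, for every complex exponent. -/
theorem area_j (S : Sg Y H) (L : Lg Y f) {α : ℂ} {ν : ℕ → ℕ → ℂ}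
    (hν : ∀ ζ ∈ ball (0 : ℂ) 1, ∀ z ∈ ball (0 : ℂ) 1,
      HasSum (fun p : ℕ × ℕ => ν p.1 p.2 * ζ ^ p.1 * z ^ p.2) (Complex.exp (-(α * f (ζ, z)))))
    (j N : ℕ) :
    ∑ n ∈ Finset.range N, (n : ℝ) * ‖TP α ν n (n + j)‖ ^ 2 ≤
      ∑ k ∈ Finset.Icc 1 j, (k : ℝ) * ‖TN α ν k (j - k)‖ ^ 2 := by
  have hA : Tendsto (fun R : ℝ => ∑ n ∈ Finset.range N, (n : ℝ) * ‖TP α ν n (n + j)‖ ^ 2 *
      R ^ (2 * n)) (𝓝[<] 1) (𝓝 (∑ n ∈ Finset.range N, (n : ℝ) * ‖TP α ν n (n + j)‖ ^ 2)) := by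
    have hcont : Continuous (fun R : ℝ => ∑ n ∈ Finset.range N, (n : ℝ) * ‖TP α ν n (n + j)‖ ^ 2 *
      R ^ (2 * n)) := by fun_prop
    have := (hcont.tendsto 1).mono_left (nhdsWithin_le_nhds (s := Iio 1))
    simpa using this
  have hB : Tendsto (fun R : ℝ => ∑ k ∈ Finset.Icc 1 j, (k : ℝ) * ‖TN α ν k (j - k)‖ ^ 2 *
      (R⁻¹) ^ (2 * k)) (𝓝[<] 1) (𝓝 (∑ k ∈ Finset.Icc 1 j, (k : ℝ) * ‖TN α ν k (j - k)‖ ^ 2)) := by
    have hinv : Tendsto (fun R : ℝ => R⁻¹) (𝓝[<] 1) (𝓝 1) := by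
      have := (continuousAt_inv₀ (one_ne_zero (α := ℝ))).tendsto.mono_left
        (nhdsWithin_le_nhds (s := Iio 1))
      simpa using this
    have := tendsto_finsetSum (Finset.Icc 1 j) fun k _ =>
      (hinv.pow (2 * k)).const_mul ((k : ℝ) * ‖TN α ν k (j - k)‖ ^ 2)
    simpa using this
  refine le_of_tendsto_of_tendsto hA hB ?_
  have hIoo : Ioo (0 : ℝ) 1 ∈ 𝓝[<] (1 : ℝ) := Ioo_mem_nhdsLT one_pos
  filter_upwards [hIoo] with R hR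
  exact area_R S L hν j N hR.1 hR.2

theorem enn (a : ℂ) (n : ℕ) : (n : ℝ≥0∞) * ‖a‖ₑ ^ 2 = ENNReal.ofReal ((n : ℝ) * ‖a‖ ^ 2) := by
  rw [ENNReal.ofReal_mul (by positivity), ENNReal.ofReal_pow (norm_nonneg _),
    ofReal_norm, ENNReal.ofReal_natCast]

/-- the area inequality in extended numbers -/
theorem area_enn (S : Sg Y H) (L : Lg Y f) {α : ℂ} {ν : ℕ → ℕ → ℂ}
    (hν : ∀ ζ ∈ ball (0 : ℂ) 1, ∀ z ∈ ball (0 : ℂ) 1,
      HasSum (fun p : ℕ × ℕ => ν p.1 p.2 * ζ ^ p.1 * z ^ p.2) (Complex.exp (-(α * f (ζ, z)))))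
    (j : ℕ) :
    ∑' n : ℕ, (n : ℝ≥0∞) * ‖TP α ν n (n + j)‖ₑ ^ 2 ≤
      ∑ k ∈ Finset.Icc 1 j, (k : ℝ≥0∞) * ‖TN α ν k (j - k)‖ₑ ^ 2 := by
  apply ENNReal.tsum_le_of_sum_range_le
  intro N
  simp only [enn]
  rw [← ENNReal.ofReal_sum_of_nonneg (fun k _ => by positivity),
    ← ENNReal.ofReal_sum_of_nonneg (fun k _ => by positivity)]
  exact ENNReal.ofReal_le_ofReal (area_j S L hν j N)

/-- reindexing of a double sum over a triangle -/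
theorem tri (G : ℕ → ℕ → ℝ≥0∞) :
    ∑' j : ℕ, ∑ k ∈ Finset.Icc 1 j, G k (j - k) ≤ ∑' k : ℕ, ∑' m : ℕ, G k m := by
  have h1 : ∀ j : ℕ, ∑ k ∈ Finset.Icc 1 j, G k (j - k) ≤
      ∑' k : ℕ, if k ≤ j then G k (j - k) else 0 := by
    intro j
    have h2 : ∑ k ∈ Finset.Icc 1 j, G k (j - k) =
        ∑ k ∈ Finset.Icc 1 j, if k ≤ j then G k (j - k) else 0 :=
      Finset.sum_congr rfl fun k hk => by rw [if_pos (Finset.mem_Icc.1 hk).2]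
    rw [h2]
    exact ENNReal.sum_le_tsum _
  refine (ENNReal.tsum_le_tsum h1).trans ?_
  rw [ENNReal.tsum_comm]
  apply ENNReal.tsum_le_tsum
  intro k
  have h3 := Summable.sum_add_tsum_nat_add' (f := fun j : ℕ => if k ≤ j then G k (j - k) else 0)
    (k := k) ENNReal.summable
  rw [← h3]
  have h4 : ∑ j ∈ Finset.range k, (if k ≤ j then G k (j - k) else 0) = 0 := by
    apply Finset.sum_eq_zero
    intro j hj
    rw [Finset.mem_range] at hj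
    rw [if_neg (by omega)]
  rw [h4, zero_add]
  apply le_of_eq
  apply tsum_congr
  intro m
  rw [if_pos (by omega), Nat.add_sub_cancel]

/-- **The weighted area inequality**, for every real weight exponent (the hypothesis of
`Pool.Agent.H64.CX.S_IDX`). -/
theorem area_w (S : Sg Y H) (L : Lg Y f) {α : ℂ} {ν : ℕ → ℕ → ℂ}
    (hν : ∀ ζ ∈ ball (0 : ℂ) 1, ∀ z ∈ ball (0 : ℂ) 1,
      HasSum (fun p : ℕ × ℕ => ν p.1 p.2 * ζ ^ p.1 * z ^ p.2) (Complex.exp (-(α * f (ζ, z)))))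
    (μ ρ : ℝ) :
    ∑' n : ℕ, ∑' j : ℕ, ENNReal.ofReal (ρ ^ j * ((j : ℝ) + 1) ^ (-μ)) *
        ((n : ℝ≥0∞) * ‖TP α ν n (n + j)‖ₑ ^ 2) ≤
      ∑' k : ℕ, ∑' m : ℕ, ENNReal.ofReal (ρ ^ (m + k) * ((m : ℝ) + k + 1) ^ (-μ)) *
        ((k : ℝ≥0∞) * ‖TN α ν k m‖ₑ ^ 2) := by
  rw [ENNReal.tsum_comm]
  have h1 : ∀ j : ℕ, ∑' n : ℕ, ENNReal.ofReal (ρ ^ j * ((j : ℝ) + 1) ^ (-μ)) *
        ((n : ℝ≥0∞) * ‖TP α ν n (n + j)‖ₑ ^ 2) ≤
      ∑ k ∈ Finset.Icc 1 j, ENNReal.ofReal (ρ ^ ((j - k) + k) * (((j - k : ℕ) : ℝ) + k + 1) ^ (-μ)) *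
        ((k : ℝ≥0∞) * ‖TN α ν k (j - k)‖ₑ ^ 2) := by
    intro j
    rw [ENNReal.tsum_mul_left]
    refine (mul_le_mul_right (area_enn S L hν j) _).trans (le_of_eq ?_)
    rw [Finset.mul_sum]
    apply Finset.sum_congr rfl
    intro k hk
    rw [Finset.mem_Icc] at hk
    have e1 : j - k + k = j := by omega
    have e2 : ((j - k : ℕ) : ℝ) + k = j := by
      rw [← Nat.cast_add, e1]
    rw [e1, e2]
  refine (ENNReal.tsum_le_tsum h1).trans ?_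
  exact tri (fun k m => ENNReal.ofReal (ρ ^ (m + k) * ((m : ℝ) + k + 1) ^ (-μ)) *
        ((k : ℝ≥0∞) * ‖TN α ν k m‖ₑ ^ 2))

end Pool.Agent.H7.CY
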