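import Pool.Agent.H64.CX.Stm

set_option autoImplicit false

/-! # Series lemmas for the area inequality of one Taylor coefficient -/

namespace Pool.Agent.H7.CY

open Metric Set Filter Topology
open Pool.Agent.H64.CX (bt rr TP TN)

/-- uniqueness of the coefficients of a power series in a disc -/
theorem ser_unique {a b : ℕ → ℂ} {f : ℂ → ℂ} {r : ℝ} (hr : 0 < r)
    (ha : ∀ z ∈ ball (0 : ℂ) r, HasSum (fun n : ℕ => a n * z ^ n) (f z))
    (hb : ∀ z ∈ ball (0 : ℂ) r, HasSum (fun n : ℕ => b n * z ^ n) (f z)) (n : ℕ) : a n = b n := by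
  have key : ∀ {a : ℕ → ℂ}, (∀ z ∈ ball (0 : ℂ) r, HasSum (fun n : ℕ => a n * z ^ n) (f z)) →
      HasFPowerSeriesAt f (FormalMultilinearSeries.ofScalars ℂ a) 0 := by
    intro a ha
    rw [hasFPowerSeriesAt_iff]
    filter_upwards [ball_mem_nhds (0 : ℂ) hr] with z hz
    have h := ha z hz
    rw [zero_add]
    simpa [FormalMultilinearSeries.coeff_ofScalars, smul_eq_mul, mul_comm] using h
  have h := (key ha).eq_formalMultilinearSeries (key hb)
  have h1 := congrArg (fun p : FormalMultilinearSeries ℂ ℂ ℂ => p.coeff n) h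
  simpa [FormalMultilinearSeries.coeff_ofScalars] using h1

/-- the Cauchy product -/
theorem hasSum_cauchy {a b : ℕ → ℂ} {A B z : ℂ} (ha : HasSum (fun n => a n * z ^ n) A)
    (hb : HasSum (fun n => b n * z ^ n) B) :
    HasSum (fun n => (∑ i ∈ Finset.range (n + 1), a i * b (n - i)) * z ^ n) (A * B) := by
  have h := hasSum_sum_range_mul_of_summable_norm ha.summable.norm hb.summable.norm
  rw [ha.tsum_eq, hb.tsum_eq] at h
  have e : (fun n => (∑ i ∈ Finset.range (n + 1), a i * b (n - i)) * z ^ n) =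
      fun n => ∑ k ∈ Finset.range (n + 1), a k * z ^ k * (b (n - k) * z ^ (n - k)) := by
    funext n
    rw [Finset.sum_mul]
    apply Finset.sum_congr rfl
    intro i hi
    have hi' : i ≤ n := Nat.lt_succ_iff.1 (Finset.mem_range.1 hi)
    have e1 : z ^ n = z ^ i * z ^ (n - i) := by rw [← pow_add]; congr 1; omega
    rw [e1]
    ring
  rw [e]
  exact h

/-- the fibre series of a double series -/
theorem fibre {ν : ℕ → ℕ → ℂ} {K : ℂ → ℂ → ℂ}
    (h : ∀ ζ ∈ ball (0 : ℂ) 1, ∀ z ∈ ball (0 : ℂ) 1,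
      HasSum (fun p : ℕ × ℕ => ν p.1 p.2 * ζ ^ p.1 * z ^ p.2) (K ζ z)) :
    (∀ ζ ∈ ball (0 : ℂ) 1, ∀ z ∈ ball (0 : ℂ) 1,
      HasSum (fun a : ℕ => (∑' b : ℕ, ν a b * z ^ b) * ζ ^ a) (K ζ z)) ∧
    (∀ a : ℕ, ∀ z ∈ ball (0 : ℂ) 1, Summable fun b : ℕ => ν a b * z ^ b) := by
  constructor
  · intro ζ hζ z hz
    have h1 := (h ζ hζ z hz)
    have h3 := h1.prod_fiberwise fun a => (h1.summable.prod_factor a).hasSum
    refine h3.congr_fun ?_ |> fun h => h
    intro a
    rw [← tsum_mul_right]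
    apply tsum_congr
    intro b
    ring
  · intro a z hz
    have h1 := (h (1 / 2) (by rw [mem_ball_zero_iff]; norm_num) z hz).summable
    have h3 := (h1.prod_factor a).mul_right ((1 / 2 : ℂ) ^ a)⁻¹
    refine h3.congr fun b => ?_
    have : (1 / 2 : ℂ) ^ a ≠ 0 := pow_ne_zero _ (by norm_num)
    field_simp

/-- the `j`-th coefficient in `ζ` -/
noncomputable def ej (α : ℂ) (ν : ℕ → ℕ → ℂ) (j : ℕ) (z : ℂ) : ℂ :=
  ∑ i ∈ Finset.range (j + 1), (∑' b : ℕ, ν i b * z ^ b) * (bt α (j - i) * (z⁻¹) ^ (j - i))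

/-- the finite part of the Laurent expansion -/
theorem fin_part (α : ℂ) (ν : ℕ → ℕ → ℂ) (w : ℂ) (j : ℕ) :
    ∑ i ∈ Finset.range (j + 1), ∑ b ∈ Finset.range (j - i),
        ν i b * (bt α (j - i) * w ^ (j - i - b)) =
      ∑ k ∈ Finset.Icc 1 j, TN α ν k (j - k) * w ^ k := by
  unfold TN
  simp only [Finset.sum_mul]
  rw [Finset.sum_sigma', Finset.sum_sigma']
  refine Finset.sum_nbij' (fun p => ⟨j - p.1 - p.2, p.2⟩) (fun p => ⟨j - p.1 - p.2, p.2⟩) ?_ ?_ ?_ ?_ ?_
  · rintro ⟨i, b⟩ h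
    simp only [Finset.mem_sigma, Finset.mem_range, Finset.mem_Icc] at h ⊢
    omega
  · rintro ⟨i, b⟩ h
    simp only [Finset.mem_sigma, Finset.mem_range, Finset.mem_Icc] at h ⊢
    omega
  · rintro ⟨i, b⟩ h
    simp only [Finset.mem_sigma, Finset.mem_range] at h
    simp only [Sigma.mk.injEq, heq_eq_eq, and_true]
    omega
  · rintro ⟨k, b⟩ h
    simp only [Finset.mem_sigma, Finset.mem_range, Finset.mem_Icc] at h
    simp only [Sigma.mk.injEq, heq_eq_eq, and_true]
    omega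
  · rintro ⟨i, b⟩ h
    simp only [Finset.mem_sigma, Finset.mem_range] at h
    simp only
    have e1 : j - (j - i - b) - b = i := by omega
    have e2 : b + (j - i - b) = j - i := by omega
    rw [e1, e2]
    ring

/-- the Laurent expansion of the `j`-th coefficient -/
theorem laurent (α : ℂ) {ν : ℕ → ℕ → ℂ} {z : ℂ} (hz0 : z ≠ 0)
    (hs : ∀ a : ℕ, Summable fun b : ℕ => ν a b * z ^ b) (j : ℕ) :
    HasSum (fun n : ℕ => TP α ν n (n + j) * z ^ n)
      (ej α ν j z - ∑ k ∈ Finset.Icc 1 j, TN α ν k (j - k) * (z⁻¹) ^ k) := by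
  have h1 : ∀ i ∈ Finset.range (j + 1), HasSum (fun n : ℕ => ν i (n + (j - i)) * bt α (j - i) * z ^ n)
      ((∑' b : ℕ, ν i b * z ^ b) * (bt α (j - i) * (z⁻¹) ^ (j - i)) -
        ∑ b ∈ Finset.range (j - i), ν i b * (bt α (j - i) * (z⁻¹) ^ (j - i - b))) := by
    intro i _
    have h2 := (hasSum_nat_add_iff' (j - i)).2 (hs i).hasSum
    have h3 := h2.mul_right (bt α (j - i) * (z⁻¹) ^ (j - i))
    have hzp : ∀ n : ℕ, z ^ n * (z⁻¹) ^ n = 1 := fun n => by
      rw [← mul_pow, mul_inv_cancel₀ hz0, one_pow]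
    rw [sub_mul, Finset.sum_mul] at h3
    have e1 : ∑ b ∈ Finset.range (j - i), ν i b * z ^ b * (bt α (j - i) * (z⁻¹) ^ (j - i)) =
        ∑ b ∈ Finset.range (j - i), ν i b * (bt α (j - i) * (z⁻¹) ^ (j - i - b)) := by
      apply Finset.sum_congr rfl
      intro b hb
      rw [Finset.mem_range] at hb
      have e2 : (z⁻¹) ^ (j - i) = (z⁻¹) ^ b * (z⁻¹) ^ (j - i - b) := by
        rw [← pow_add]; congr 1; omega
      rw [e2]
      linear_combination (ν i b * bt α (j - i) * (z⁻¹) ^ (j - i - b)) * hzp b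
    rw [e1] at h3
    refine h3.congr_fun ?_ |> fun h => h
    intro n
    rw [pow_add]
    linear_combination (-(ν i (n + (j - i)) * bt α (j - i) * z ^ n)) * hzp (j - i)
  have h4 := hasSum_sum h1
  rw [Finset.sum_sub_distrib, fin_part] at h4
  refine h4.congr_fun ?_ |> fun h => h
  intro n
  unfold TP
  rw [← Finset.sum_mul]
  congr 1
  rw [show n + j + 1 = n + (j + 1) by ring, Finset.sum_Ico_eq_sum_range,
    show n + (j + 1) - n = j + 1 by omega, ← Finset.sum_range_reflect]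
  apply Finset.sum_congr rfl
  intro i hi
  rw [Finset.mem_range] at hi
  have e1 : n + j - (n + (j + 1 - 1 - i)) = i := by omega
  have e2 : n + (j + 1 - 1 - i) = n + (j - i) := by omega
  have e3 : n + (j + 1 - 1 - i) - n = j - i := by omega
  rw [e1, e3, e2]

end Pool.Agent.H7.CY
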