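import Pool.Agent.H7.CY.A1
import Pool.Agent.H64.CX.AREA

set_option autoImplicit false

/-! # The Taylor coefficients in `ζ` of `(Y ζ - ζ w) ^ (-α)` are polynomials in `w` -/

namespace Pool.Agent.H7.CY

open Metric Set Filter Topology
open Pool.Agent.W677.Mar Pool.Agent.W5h41.MA
open Pool.Agent.H33R3.Bom (J)
open Pool.Agent.H64.CX (bt rr TP TN)
open Pool.Agent.H64.CX.AREA (pw_hasSum)

variable {Y H : ℂ → ℂ} {f : ℂ × ℂ → ℂ}

/-- the power series of `(Y ζ - ζ (Y z / z)) ^ (-α)` in `ζ` -/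
theorem ej_hasSum {α : ℂ} {ν : ℕ → ℕ → ℂ}
    (hν : ∀ ζ ∈ ball (0 : ℂ) 1, ∀ z ∈ ball (0 : ℂ) 1,
      HasSum (fun p : ℕ × ℕ => ν p.1 p.2 * ζ ^ p.1 * z ^ p.2) (Complex.exp (-(α * f (ζ, z)))))
    {z : ℂ} (hz1 : ‖z‖ < 1) {ζ : ℂ} (hζ : ζ ∈ ball (0 : ℂ) ‖z‖) :
    HasSum (fun j : ℕ => ej α ν j z * ζ ^ j) (Complex.exp (-α * ell f ζ z)) := by
  have hζn : ‖ζ‖ < ‖z‖ := mem_ball_zero_iff.1 hζ
  have hz0 : 0 < ‖z‖ := (norm_nonneg _).trans_lt hζn
  have hx : ‖ζ * z⁻¹‖ < 1 := by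
    rw [norm_mul, norm_inv, ← div_eq_mul_inv, div_lt_one hz0]
    exact hζn
  have h1 := (fibre (K := fun ζ z => Complex.exp (-(α * f (ζ, z)))) hν).1 ζ
    (mem_ball_zero_iff.2 (hζn.trans hz1)) z (mem_ball_zero_iff.2 hz1)
  have h2 := pw_hasSum α hx
  have h3 : HasSum (fun j : ℕ => (bt α j * (z⁻¹) ^ j) * ζ ^ j)
      (Complex.exp (-α * Complex.log (1 - ζ * z⁻¹))) := by
    refine h2.congr_fun ?_ |> fun h => h
    intro j
    rw [mul_pow]
    ring
  have h4 := hasSum_cauchy h1 h3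
  rw [← Complex.exp_add] at h4
  unfold ej ell
  rw [show -α * (f (ζ, z) + Complex.log (1 - ζ * z⁻¹)) =
    -(α * f (ζ, z)) + -α * Complex.log (1 - ζ * z⁻¹) by ring]
  exact h4

/-- the differential equation -/
theorem ode (S : Sg Y H) (L : Lg Y f) (α : ℂ) {z : ℂ} (hz1 : ‖z‖ < 1) {ζ : ℂ}
    (hζ : ζ ∈ ball (0 : ℂ) ‖z‖) :
    DifferentiableAt ℂ (fun s => Complex.exp (-α * ell f s z)) ζ ∧
    (Y ζ - ζ * (Y z / z)) * deriv (fun s => Complex.exp (-α * ell f s z)) ζ =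
      -α * ((deriv Y ζ - Y z / z) * Complex.exp (-α * ell f ζ z)) := by
  have hζn : ‖ζ‖ < ‖z‖ := mem_ball_zero_iff.1 hζ
  have hzb : z ∈ ball (0 : ℂ) 1 := mem_ball_zero_iff.2 hz1
  have hζb : ζ ∈ ball (0 : ℂ) 1 := mem_ball_zero_iff.2 (hζn.trans hz1)
  have hYd := S.G.diff
  have d1 : DifferentiableAt ℂ (fun s => ell f s z) ζ := by
    unfold ell
    apply DifferentiableAt.add
    · exact (L.diff1 hYd hzb).differentiableAt (isOpen_ball.mem_nhds hζb)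
    · apply DifferentiableAt.clog
      · exact (differentiableAt_id.mul_const _).const_sub 1
      · exact slit hζn
  have h2 := d1.hasDerivAt.cexp
  have h3 : HasDerivAt (fun s => Y s - s * (Y z / z)) (deriv Y ζ - 1 * (Y z / z)) ζ :=
    ((hYd.differentiableAt (isOpen_ball.mem_nhds hζb)).hasDerivAt).sub
      ((hasDerivAt_id _).mul_const _)
  have hev : (fun s => Complex.exp (ell f s z)) =ᶠ[𝓝 ζ] fun s => Y s - s * (Y z / z) := by
    filter_upwards [isOpen_ball.mem_nhds hζ] with s hs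
    exact exp_ell L (mem_ball_zero_iff.1 hs) hz1
  have h4 := h2.unique (h3.congr_of_eventuallyEq hev)
  rw [exp_ell L hζn hz1, one_mul] at h4
  have h5 := (d1.hasDerivAt.const_mul (-α)).cexp
  refine ⟨h5.differentiableAt, ?_⟩
  rw [h5.deriv]
  linear_combination (-α * Complex.exp (-α * ell f ζ z)) * h4

theorem hs_congr {f g : ℕ → ℂ} {a : ℂ} (h : HasSum f a) (e : ∀ n, g n = f n) : HasSum g a := by
  rw [show g = f from funext e]
  exact h

/-- the series of the derivative -/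
theorem ej_deriv (S : Sg Y H) (L : Lg Y f) {α : ℂ} {ν : ℕ → ℕ → ℂ}
    (hν : ∀ ζ ∈ ball (0 : ℂ) 1, ∀ z ∈ ball (0 : ℂ) 1,
      HasSum (fun p : ℕ × ℕ => ν p.1 p.2 * ζ ^ p.1 * z ^ p.2) (Complex.exp (-(α * f (ζ, z)))))
    {z : ℂ} (hz0 : z ≠ 0) (hz1 : ‖z‖ < 1) {ζ : ℂ} (hζ : ζ ∈ ball (0 : ℂ) ‖z‖) :
    HasSum (fun j : ℕ => (((j : ℂ) + 1) * ej α ν (j + 1) z) * ζ ^ j)
      (deriv (fun s => Complex.exp (-α * ell f s z)) ζ) := by
  have hr : 0 < ‖z‖ := norm_pos_iff.2 hz0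
  have hFd : DifferentiableOn ℂ (fun s => Complex.exp (-α * ell f s z)) (ball 0 ‖z‖) := fun s hs =>
    (ode S L α hz1 hs).1.differentiableWithinAt
  have hcf : ∀ n, cf n (fun s => Complex.exp (-α * ell f s z)) = ej α ν n z :=
    ser_unique hr (fun ζ hζ => cf_hasSum hFd hζ) (fun ζ hζ => ej_hasSum hν hz1 hζ)
  refine hs_congr (cf_hasSum (hFd.deriv isOpen_ball) hζ) fun n => ?_
  rw [cf_deriv, hcf]

/-- the series of the base -/
theorem u_hasSum (hY : DifferentiableOn ℂ Y (ball 0 1)) (w : ℂ) {ζ : ℂ} (hζ : ζ ∈ ball (0 : ℂ) 1) :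
    HasSum (fun j : ℕ => (cf j Y - if j = 1 then w else 0) * ζ ^ j) (Y ζ - ζ * w) := by
  have h1 := hasSum_ite_eq (1 : ℕ) (ζ * w)
  refine hs_congr ((cf_hasSum hY hζ).sub h1) fun n => ?_
  by_cases hn : n = 1
  · subst hn
    simp
    ring
  · simp [hn]

/-- the series of the derivative of the base -/
theorem u_deriv (hY : DifferentiableOn ℂ Y (ball 0 1)) (w : ℂ) {ζ : ℂ} (hζ : ζ ∈ ball (0 : ℂ) 1) :
    HasSum (fun j : ℕ => (((j : ℂ) + 1) * (cf (j + 1) Y - if j + 1 = 1 then w else 0)) * ζ ^ j)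
      (deriv Y ζ - w) := by
  have h1 := hasSum_ite_eq (0 : ℕ) w
  refine hs_congr ((cf_hasSum (hY.deriv isOpen_ball) hζ).sub h1) fun n => ?_
  rw [cf_deriv]
  by_cases hn : n = 0
  · subst hn
    simp
  · simp [hn]

/-- the recursion for the coefficients -/
theorem recur (S : Sg Y H) (L : Lg Y f) {α : ℂ} {ν : ℕ → ℕ → ℂ}
    (hν : ∀ ζ ∈ ball (0 : ℂ) 1, ∀ z ∈ ball (0 : ℂ) 1,
      HasSum (fun p : ℕ × ℕ => ν p.1 p.2 * ζ ^ p.1 * z ^ p.2) (Complex.exp (-(α * f (ζ, z)))))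
    {z : ℂ} (hz0 : z ≠ 0) (hz1 : ‖z‖ < 1) (j : ℕ) :
    ∑ i ∈ Finset.range (j + 1), (cf i Y - if i = 1 then Y z / z else 0) *
        ((((j - i : ℕ) : ℂ) + 1) * ej α ν (j - i + 1) z) =
      -α * ∑ i ∈ Finset.range (j + 1), (((i : ℂ) + 1) * (cf (i + 1) Y - if i + 1 = 1 then Y z / z else 0)) *
        ej α ν (j - i) z := by
  have hr : 0 < ‖z‖ := norm_pos_iff.2 hz0
  have hsub : ball (0 : ℂ) ‖z‖ ⊆ ball 0 1 := ball_subset_ball hz1.le
  have e1 : ∀ ζ ∈ ball (0 : ℂ) ‖z‖, HasSum (fun n : ℕ => (∑ i ∈ Finset.range (n + 1),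
      (cf i Y - if i = 1 then Y z / z else 0) *
        ((((n - i : ℕ) : ℂ) + 1) * ej α ν (n - i + 1) z)) * ζ ^ n)
      ((Y ζ - ζ * (Y z / z)) * deriv (fun s => Complex.exp (-α * ell f s z)) ζ) := by
    intro ζ hζ
    have h1 := u_hasSum S.G.diff (Y z / z) (hsub hζ)
    have h2 := ej_deriv S L hν hz0 hz1 hζ
    exact hasSum_cauchy (a := fun i => cf i Y - if i = 1 then Y z / z else 0)
      (b := fun n => ((n : ℂ) + 1) * ej α ν (n + 1) z) h1 h2
  have e2 : ∀ ζ ∈ ball (0 : ℂ) ‖z‖, HasSum (fun n : ℕ => (-α * ∑ i ∈ Finset.range (n + 1),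
      (((i : ℂ) + 1) * (cf (i + 1) Y - if i + 1 = 1 then Y z / z else 0)) *
        ej α ν (n - i) z) * ζ ^ n)
      ((Y ζ - ζ * (Y z / z)) * deriv (fun s => Complex.exp (-α * ell f s z)) ζ) := by
    intro ζ hζ
    rw [(ode S L α hz1 hζ).2]
    have h1 := (hasSum_cauchy (a := fun i => ((i : ℂ) + 1) *
      (cf (i + 1) Y - if i + 1 = 1 then Y z / z else 0)) (b := fun n => ej α ν n z)
      (u_deriv S.G.diff (Y z / z) (hsub hζ)) (ej_hasSum hν hz1 hζ)).mul_left (-α)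
    refine hs_congr h1 fun n => ?_
    rw [mul_assoc]
  exact ser_unique (f := fun ζ => (Y ζ - ζ * (Y z / z)) *
    deriv (fun s => Complex.exp (-α * ell f s z)) ζ) hr e1 e2 j

/-- the coefficient of order zero -/
theorem ej_zero (L : Lg Y f) {α : ℂ} {ν : ℕ → ℕ → ℂ}
    (hν : ∀ ζ ∈ ball (0 : ℂ) 1, ∀ z ∈ ball (0 : ℂ) 1,
      HasSum (fun p : ℕ × ℕ => ν p.1 p.2 * ζ ^ p.1 * z ^ p.2) (Complex.exp (-(α * f (ζ, z)))))
    {z : ℂ} (hz0 : z ≠ 0) (hz1 : ‖z‖ < 1) : ej α ν 0 z = 1 := by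
  have h0 : (0 : ℂ) ∈ ball (0 : ℂ) ‖z‖ := by
    rw [mem_ball_zero_iff, norm_zero]
    exact norm_pos_iff.2 hz0
  have h1 := ej_hasSum hν hz1 h0
  have h2 : HasSum (fun j : ℕ => ej α ν j z * (0 : ℂ) ^ j) (ej α ν 0 z) := by
    have := hasSum_single (f := fun j : ℕ => ej α ν j z * (0 : ℂ) ^ j) 0 (fun n hn => by
      simp [zero_pow hn])
    simpa using this
  rw [h2.unique h1]
  unfold ell
  have h3 : f (0, z) = 0 := by
    rw [L.symm (mem_ball_self one_pos) (mem_ball_zero_iff.2 hz1)]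
    exact L.zero z (mem_ball_zero_iff.2 hz1)
  rw [h3]
  simp

theorem Y_zero (S : Sg Y H) : cf 0 Y = 1 := by
  unfold cf
  simp [S.G.one]

/-- the coefficients are polynomials -/
theorem poly (S : Sg Y H) (L : Lg Y f) {α : ℂ} {ν : ℕ → ℕ → ℂ}
    (hν : ∀ ζ ∈ ball (0 : ℂ) 1, ∀ z ∈ ball (0 : ℂ) 1,
      HasSum (fun p : ℕ × ℕ => ν p.1 p.2 * ζ ^ p.1 * z ^ p.2) (Complex.exp (-(α * f (ζ, z)))))
    (j : ℕ) : ∃ P : Polynomial ℂ, ∀ z : ℂ, z ≠ 0 → ‖z‖ < 1 → ej α ν j z = P.eval (Y z / z) := by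
  induction j using Nat.strong_induction_on with
  | _ j ih =>
    rcases j with _ | j
    · exact ⟨1, fun z hz0 hz1 => by rw [ej_zero L hν hz0 hz1, Polynomial.eval_one]⟩
    · choose! P hP using ih
      let U : ℕ → Polynomial ℂ := fun i => Polynomial.C (cf i Y) - if i = 1 then Polynomial.X else 0
      have hU : ∀ i w, (U i).eval w = cf i Y - if i = 1 then w else 0 := by
        intro i w
        simp only [U]
        split_ifs <;> simp
      refine ⟨Polynomial.C (((j : ℂ) + 1)⁻¹) *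
        (Polynomial.C (-α) * ∑ i ∈ Finset.range (j + 1), (Polynomial.C ((i : ℂ) + 1) * U (i + 1)) * P (j - i) -
          ∑ i ∈ Finset.range j, U (i + 1) * (Polynomial.C (((j - (i + 1) : ℕ) : ℂ) + 1) *
            P (j - (i + 1) + 1))), fun z hz0 hz1 => ?_⟩
      have h1 := recur S L hν hz0 hz1 j
      rw [Finset.sum_range_succ'] at h1
      have hj : ((j : ℂ) + 1) ≠ 0 := by exact_mod_cast Nat.succ_ne_zero j
      have h2 : ((j : ℂ) + 1) * ej α ν (j + 1) z =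
          -α * ∑ i ∈ Finset.range (j + 1), (((i : ℂ) + 1) * (cf (i + 1) Y - if i + 1 = 1 then Y z / z else 0)) *
        ej α ν (j - i) z - ∑ i ∈ Finset.range j, (cf (i + 1) Y - if i + 1 = 1 then Y z / z else 0) *
        ((((j - (i + 1) : ℕ) : ℂ) + 1) * ej α ν (j - (i + 1) + 1) z) := by
        rw [← h1, Y_zero S]
        simp
      rw [Polynomial.eval_mul, Polynomial.eval_C, Polynomial.eval_sub, Polynomial.eval_mul,
        Polynomial.eval_C, Polynomial.eval_finsetSum, Polynomial.eval_finsetSum]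
      have h3 : ∑ i ∈ Finset.range (j + 1), Polynomial.eval (Y z / z)
          (Polynomial.C ((i : ℂ) + 1) * U (i + 1) * P (j - i)) =
          ∑ i ∈ Finset.range (j + 1), (((i : ℂ) + 1) * (cf (i + 1) Y - if i + 1 = 1 then Y z / z else 0)) *
            ej α ν (j - i) z := by
        apply Finset.sum_congr rfl
        intro i _
        rw [Polynomial.eval_mul, Polynomial.eval_mul, Polynomial.eval_C, hU,
          hP (j - i) (by omega) z hz0 hz1]
      have h4 : ∑ i ∈ Finset.range j, Polynomial.eval (Y z / z)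
          (U (i + 1) * (Polynomial.C (((j - (i + 1) : ℕ) : ℂ) + 1) * P (j - (i + 1) + 1))) =
          ∑ i ∈ Finset.range j, (cf (i + 1) Y - if i + 1 = 1 then Y z / z else 0) *
        ((((j - (i + 1) : ℕ) : ℂ) + 1) * ej α ν (j - (i + 1) + 1) z) := by
        apply Finset.sum_congr rfl
        intro i hi
        rw [Finset.mem_range] at hi
        rw [Polynomial.eval_mul, Polynomial.eval_mul, Polynomial.eval_C, hU,
          hP (j - (i + 1) + 1) (by omega) z hz0 hz1]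
      rw [h3, h4, ← h2, inv_mul_cancel_left₀ hj]

end Pool.Agent.H7.CY
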